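import Pool.Agent.H20.RT.Stmts

set_option autoImplicit false

namespace Pool.RT

theorem WRCAux.comb_lt {a b x y : ℕ} (hx : x < 10 ^ a) (hy : y < 10 ^ b) :
    x * 10 ^ b + y < 10 ^ (a + b) := by
  have h1 : (x + 1) * 10 ^ b ≤ 10 ^ a * 10 ^ b := Nat.mul_le_mul_right _ hx
  rw [pow_add]
  have h2 : (x + 1) * 10 ^ b = x * 10 ^ b + 10 ^ b := by ring
  omega

theorem WRC_thm : WRCStmt := by
  intro K P Q r K' P' Q' r' h h'
  obtain ⟨hP, hQ, hw⟩ := h
  obtain ⟨hP', hQ', hw'⟩ := h'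
  refine ⟨?_, ?_, ?_⟩
  · have := WRCAux.comb_lt hP' hP
    rw [Nat.add_comm K K']
    exact this
  · exact WRCAux.comb_lt hQ hQ'
  · intro l F hF d hd1 hd9
    have hF' : P * 10 ^ (K + l) + F * 10 ^ K + Q < 10 ^ (2 * K + l) := by
      have h1 : F * 10 ^ K + Q < 10 ^ (l + K) := WRCAux.comb_lt hF hQ
      have h2 : P * 10 ^ (l + K) + (F * 10 ^ K + Q) < 10 ^ (K + (l + K)) :=
        WRCAux.comb_lt hP h1
      have e1 : K + (l + K) = 2 * K + l := by ring
      have e2 : l + K = K + l := Nat.add_comm _ _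
      rw [e1, e2] at h2
      omega
    have h3 := hw' (2 * K + l) (P * 10 ^ (K + l) + F * 10 ^ K + Q) hF' d hd1 hd9
    have h4 := hw l F hF d hd1 hd9
    have e3 : 2 * K' + (2 * K + l) = 2 * (K + K') + l := by ring
    have e4 : P' * 10 ^ (K' + (2 * K + l)) + (P * 10 ^ (K + l) + F * 10 ^ K + Q) * 10 ^ K' + Q'
        = (P' * 10 ^ K + P) * 10 ^ (K + K' + l) + F * 10 ^ (K + K') + (Q * 10 ^ K' + Q') := by
      ring
    rw [e3, e4] at h3
    rw [h3, h4]
    ring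

end Pool.RT

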